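import Mathlib
import Pool.Agent.Lib.PNT

set_option autoImplicit false

open Filter Topology Finset ArithmeticFunction

namespace Pool.Agent.Hhelper25.MobDil

/-- `w n = Λ(n-1)`. -/
noncomputable def w (n : ℕ) : ℝ := vonMangoldt (n - 1)

lemma w_nonneg (n : ℕ) : 0 ≤ w n := vonMangoldt_nonneg

/-- `F e X = ∑_{n ≤ X, e ∣ n} Λ(n-1)`. -/
noncomputable def F (e X : ℕ) : ℝ := ∑ n ∈ (Icc 1 X).filter (fun n => e ∣ n), w n

lemma F_eq (e X : ℕ) (he : 0 < e) : F e X =
    ∑ k ∈ (Icc 1 (X - 1)).filter (fun k : ℕ => (k : ZMod e) = -1), vonMangoldt k := by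
  unfold F w
  rcases Nat.eq_zero_or_pos X with rfl | hX
  · simp
  rw [sum_filter, sum_filter]
  -- shift
  have h1 : ∑ n ∈ Icc 1 X, (if e ∣ n then (vonMangoldt (n - 1) : ℝ) else 0)
      = ∑ k ∈ range X, (if e ∣ (k + 1) then (vonMangoldt k : ℝ) else 0) := by
    have h := sum_Ico_add' (fun n => if e ∣ n then (vonMangoldt (n - 1) : ℝ) else 0) 0 X 1
    simp only [Nat.add_sub_cancel, zero_add] at h
    rw [range_eq_Ico, h]
    rfl
  rw [h1]
  obtain ⟨Y, rfl⟩ : ∃ Y, X = Y + 1 := ⟨X - 1, by omega⟩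
  rw [sum_range_succ']
  simp only [Nat.add_sub_cancel]
  have h2 : (if e ∣ 0 + 1 then (vonMangoldt 0 : ℝ) else 0) = 0 := by simp
  have h3 := sum_Ico_add' (fun k => if e ∣ (k + 1) then (vonMangoldt k : ℝ) else 0) 0 Y 1
  simp only [zero_add] at h3
  rw [h2, add_zero, range_eq_Ico, h3]
  refine sum_congr rfl fun k _ => ?_
  have : e ∣ k + 1 ↔ (k : ZMod e) = -1 := by
    rw [← ZMod.natCast_eq_zero_iff, Nat.cast_add, Nat.cast_one, eq_neg_iff_add_eq_zero]
  simp only [this]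

lemma tendsto_F (e : ℕ) (he : 0 < e) :
    Tendsto (fun X : ℕ => F e X / X) atTop (𝓝 ((e.totient : ℝ)⁻¹)) := by
  have : NeZero e := ⟨he.ne'⟩
  have h := Pool.Agent.Lib.PNT.psi_AP (q := e) (a := -1) (isUnit_one.neg)
  have h2 : Tendsto (fun X : ℕ => ((X - 1 : ℕ) : ℝ)) atTop atTop :=
    tendsto_natCast_atTop_atTop.comp (tendsto_sub_atTop_nat 1)
  have h3 := h.comp h2
  have h4 : Tendsto (fun X : ℕ => ((X - 1 : ℕ) : ℝ) / X) atTop (𝓝 1) := by
    have : Tendsto (fun X : ℕ => (1 : ℝ) - 1 / X) atTop (𝓝 (1 - 0)) :=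
      tendsto_const_nhds.sub tendsto_one_div_atTop_nhds_zero_nat
    rw [sub_zero] at this
    refine this.congr' ?_
    filter_upwards [eventually_ge_atTop 1] with X hX
    have : (X : ℝ) ≠ 0 := by positivity
    rw [Nat.cast_sub hX]; field_simp; simp
  have h5 := h3.mul h4
  rw [mul_one] at h5
  refine h5.congr' ?_
  filter_upwards [eventually_ge_atTop 2] with X hX
  have hX1 : ((X - 1 : ℕ) : ℝ) ≠ 0 := by
    have : 0 < X - 1 := by omega
    positivity
  simp only [Function.comp, Nat.floor_natCast]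
  rw [F_eq e X he]
  field_simp


/-- `T d X = ∑_{m ≤ X/d} μ(m) Λ(dm-1)`. -/
noncomputable def T (d X : ℕ) : ℝ :=
  ∑ m ∈ Icc 1 (X / d), ((moebius m : ℤ) : ℝ) * vonMangoldt (d * m - 1)

/-- The part of `T d X` with `m` prime to `d`. -/
noncomputable def Tc (d X : ℕ) : ℝ :=
  ∑ m ∈ (Icc 1 (X / d)).filter (fun m => m.Coprime d), ((moebius m : ℤ) : ℝ) * vonMangoldt (d * m - 1)

/-- `S X = ∑_{n ≤ X} μ(n) Λ(n-1)`. -/
noncomputable def S (X : ℕ) : ℝ := ∑ n ∈ Icc 1 X, ((moebius n : ℤ) : ℝ) * vonMangoldt (n - 1)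

/-- reindexing of multiples of `d`. -/
lemma sum_multiples (d X : ℕ) (hd : 0 < d) (f : ℕ → ℝ) :
    ∑ n ∈ (Icc 1 X).filter (fun n => d ∣ n), f n = ∑ m ∈ Icc 1 (X / d), f (d * m) := by
  symm
  refine sum_bij (fun m _ => d * m) ?_ ?_ ?_ ?_
  · intro m hm
    rw [mem_Icc] at hm
    rw [mem_filter, mem_Icc]
    refine ⟨⟨?_, ?_⟩, Dvd.intro _ rfl⟩
    · exact Nat.mul_pos hd hm.1
    · calc d * m ≤ d * (X / d) := Nat.mul_le_mul_left _ hm.2
        _ ≤ X := Nat.mul_div_le X d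
  · intro a _ b _ h
    exact Nat.eq_of_mul_eq_mul_left hd h
  · intro n hn
    rw [mem_filter, mem_Icc] at hn
    obtain ⟨⟨h1, h2⟩, ⟨m, rfl⟩⟩ := hn
    refine ⟨m, ?_, rfl⟩
    rw [mem_Icc]
    refine ⟨?_, ?_⟩
    · rcases Nat.eq_zero_or_pos m with rfl | h
      · simp at h1
      · exact h
    · rw [Nat.le_div_iff_mul_le hd, mul_comm]; exact h2
  · intro _ _; rfl

lemma sum_mu_multiples (d X : ℕ) (hd : 0 < d) :
    ∑ n ∈ (Icc 1 X).filter (fun n => d ∣ n), ((moebius n : ℤ) : ℝ) * w n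
      = ((moebius d : ℤ) : ℝ) * Tc d X := by
  rw [sum_multiples d X hd, Tc, mul_sum, sum_filter]
  refine sum_congr rfl fun m _ => ?_
  unfold w
  split_ifs with h
  · rw [isMultiplicative_moebius.map_mul_of_coprime h.symm]
    push_cast; ring
  · have h2 : ¬ Squarefree (d * m) := by
      intro h3
      exact h ((Nat.squarefree_mul_iff.mp h3).1.symm)
    rw [moebius_eq_zero_of_not_squarefree h2]
    simp

lemma moebius_abs_le (n : ℕ) : |((moebius n : ℤ) : ℝ)| ≤ 1 := by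
  have := abs_moebius_le_one (n := n)
  exact_mod_cast this

/-- the difference between `T` and `Tc` for a prime. -/
lemma abs_T_sub_Tc_le (p X : ℕ) (hp : p.Prime) : |T p X - Tc p X| ≤ F (p ^ 2) X := by
  have h1 : T p X - Tc p X = ∑ m ∈ (Icc 1 (X / p)).filter (fun m => ¬ m.Coprime p),
      ((moebius m : ℤ) : ℝ) * vonMangoldt (p * m - 1) := by
    rw [T, Tc, sub_eq_iff_eq_add', sum_filter_add_sum_filter_not]
  have h2 : F (p ^ 2) X = ∑ m ∈ (Icc 1 (X / p)).filter (fun m => ¬ m.Coprime p),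
      vonMangoldt (p * m - 1) := by
    have h3 : (Icc 1 X).filter (fun n => p ^ 2 ∣ n)
        = ((Icc 1 X).filter (fun n => p ∣ n)).filter (fun n => p ^ 2 ∣ n) := by
      rw [filter_filter]
      refine filter_congr fun n _ => ?_
      constructor
      · intro h; exact ⟨(dvd_pow_self p two_ne_zero).trans h, h⟩
      · exact fun h => h.2
    rw [F, h3, sum_filter, sum_multiples p X hp.pos, sum_filter]
    refine sum_congr rfl fun m _ => ?_
    have : p ^ 2 ∣ p * m ↔ ¬ m.Coprime p := by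
      rw [pow_two, Nat.mul_dvd_mul_iff_left hp.pos, Nat.coprime_comm, hp.coprime_iff_not_dvd, not_not]
    simp only [this, w]
  rw [h1, h2]
  refine (abs_sum_le_sum_abs _ _).trans (sum_le_sum fun m _ => ?_)
  rw [abs_mul, abs_of_nonneg (vonMangoldt_nonneg (n := p * m - 1))]
  calc _ ≤ 1 * vonMangoldt (p * m - 1) :=
        mul_le_mul_of_nonneg_right (moebius_abs_le m) vonMangoldt_nonneg
    _ = _ := one_mul _

lemma abs_T_le (p X : ℕ) (hp : 0 < p) : |T p X| ≤ F p X := by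
  rw [F, sum_multiples p X hp]
  refine (abs_sum_le_sum_abs _ _).trans (sum_le_sum fun m _ => ?_)
  rw [abs_mul, abs_of_nonneg (vonMangoldt_nonneg (n := p * m - 1))]
  calc _ ≤ 1 * vonMangoldt (p * m - 1) :=
        mul_le_mul_of_nonneg_right (moebius_abs_le m) vonMangoldt_nonneg
    _ = _ := one_mul _

end Pool.Agent.Hhelper25.MobDil
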