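import Mathlib
import Pool.Agent.Hhelper25.MobDil.Basic

set_option autoImplicit false

open Filter Topology Finset ArithmeticFunction

namespace Pool.Agent.Hhelper25.MobDil

/-- `h = μ * φ` (Dirichlet convolution); `h p = p - 2` for a prime `p`. -/
noncomputable def h (d : ℕ) : ℝ :=
  ∑ x ∈ d.divisorsAntidiagonal, ((moebius x.1 : ℤ) : ℝ) * (x.2.totient : ℝ)

/-- `G d n = ∑_{e ∣ d} μ(d/e) φ(e) 1_{e ∣ n}`. -/
noncomputable def G (d n : ℕ) : ℝ :=
  ∑ x ∈ d.divisorsAntidiagonal, ((moebius x.1 : ℤ) : ℝ) * ((x.2.totient : ℝ) * if x.2 ∣ n then 1 else 0)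

lemma sum_h (n : ℕ) (hn : 0 < n) : ∑ k ∈ n.divisors, h k = (n.totient : ℝ) := by
  have := (sum_eq_iff_sum_mul_moebius_eq (R := ℝ) (f := h) (g := fun n => (n.totient : ℝ))).mpr
    (fun n _ => rfl)
  exact this n hn

lemma sum_mu_dvd (k n : ℕ) (hk : 0 < k) (hn : 0 < n) :
    ∑ x ∈ n.divisorsAntidiagonal, ((moebius x.1 : ℤ) : ℝ) * (if k ∣ x.2 then 1 else 0)
      = if n = k then 1 else 0 := by
  have := (sum_eq_iff_sum_mul_moebius_eq (R := ℝ) (f := fun n => if n = k then 1 else 0)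
    (g := fun n => if k ∣ n then 1 else 0)).mp
    (fun n hn => by
      rw [sum_ite_eq']
      simp [Nat.mem_divisors, hn.ne'])
  exact this n hn

lemma totient_div_lcm (a b : ℕ) (ha : 0 < a) (hb : 0 < b) :
    (a.totient : ℝ) * (b.totient : ℝ) * ((a.lcm b).totient : ℝ)⁻¹ = ((a.gcd b).totient : ℝ) := by
  have hg : 0 < a.gcd b := Nat.gcd_pos_of_pos_left b ha
  have hl : 0 < a.lcm b := Nat.lcm_pos ha hb
  have h1 := Nat.totient_gcd_mul_totient_mul a b
  have h2 := Nat.totient_gcd_mul_totient_mul (a.gcd b) (a.lcm b)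
  have h3 : (a.gcd b).gcd (a.lcm b) = a.gcd b :=
    Nat.gcd_eq_left ((Nat.gcd_dvd_left a b).trans (Nat.dvd_lcm_left a b))
  rw [h3, Nat.gcd_mul_lcm] at h2
  have hφg : 0 < (a.gcd b).totient := Nat.totient_pos.mpr hg
  have hφl : 0 < (a.lcm b).totient := Nat.totient_pos.mpr hl
  -- φ(g) φ(ab) = φ(g) φ(l) g, φ(g) φ(ab) = φ a φ b g
  have h4 : (a.gcd b).totient * (a.lcm b).totient * a.gcd b = a.totient * b.totient * a.gcd b := by
    rw [← h1, ← h2]
  have h5 : (a.gcd b).totient * (a.lcm b).totient = a.totient * b.totient :=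
    Nat.eq_of_mul_eq_mul_right hg h4
  have h6 : ((a.gcd b).totient : ℝ) * ((a.lcm b).totient : ℝ) = (a.totient : ℝ) * (b.totient : ℝ) := by
    exact_mod_cast h5
  rw [← h6]
  have : ((a.lcm b).totient : ℝ) ≠ 0 := by positivity
  field_simp

lemma orth (d d' : ℕ) (hd : 0 < d) (hd' : 0 < d') :
    ∑ x ∈ d.divisorsAntidiagonal, ∑ y ∈ d'.divisorsAntidiagonal,
      ((moebius x.1 : ℤ) : ℝ) * (x.2.totient : ℝ) * (((moebius y.1 : ℤ) : ℝ) * (y.2.totient : ℝ))
        * ((x.2.lcm y.2).totient : ℝ)⁻¹ = if d = d' then h d else 0 := by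
  have h1 : ∀ x ∈ d.divisorsAntidiagonal, ∀ y ∈ d'.divisorsAntidiagonal,
      ((moebius x.1 : ℤ) : ℝ) * (x.2.totient : ℝ) * (((moebius y.1 : ℤ) : ℝ) * (y.2.totient : ℝ))
        * ((x.2.lcm y.2).totient : ℝ)⁻¹
      = ∑ k ∈ d.divisors, h k * ((((moebius x.1 : ℤ) : ℝ) * (if k ∣ x.2 then 1 else 0)) *
          (((moebius y.1 : ℤ) : ℝ) * (if k ∣ y.2 then 1 else 0))) := by
    intro x hx y hy
    rw [Nat.mem_divisorsAntidiagonal] at hx hy
    have hx2 : 0 < x.2 := Nat.pos_of_ne_zero (by rintro h; apply hx.2; rw [← hx.1, h, mul_zero])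
    have hy2 : 0 < y.2 := Nat.pos_of_ne_zero (by rintro h; apply hy.2; rw [← hy.1, h, mul_zero])
    have h2 := totient_div_lcm x.2 y.2 hx2 hy2
    have hg : 0 < x.2.gcd y.2 := Nat.gcd_pos_of_pos_left _ hx2
    have h3 : ((x.2.gcd y.2).totient : ℝ) = ∑ k ∈ d.divisors, h k * (if k ∣ x.2 then 1 else 0) *
        (if k ∣ y.2 then 1 else 0) := by
      rw [← sum_h _ hg]
      have h4 : (x.2.gcd y.2).divisors = d.divisors.filter (fun k => k ∣ x.2 ∧ k ∣ y.2) := by
        ext k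
        simp only [Nat.mem_divisors, mem_filter, Nat.dvd_gcd_iff]
        constructor
        · rintro ⟨⟨h5, h6⟩, _⟩
          exact ⟨⟨h5.trans (Dvd.intro_left _ hx.1), hx.2⟩, h5, h6⟩
        · rintro ⟨_, h5, h6⟩
          exact ⟨⟨h5, h6⟩, hg.ne'⟩
      rw [h4, sum_filter]
      refine sum_congr rfl fun k _ => ?_
      by_cases h5 : k ∣ x.2 <;> by_cases h6 : k ∣ y.2 <;> simp [h5, h6]
    calc _ = ((moebius x.1 : ℤ) : ℝ) * ((moebius y.1 : ℤ) : ℝ) *
          ((x.2.totient : ℝ) * (y.2.totient : ℝ) * ((x.2.lcm y.2).totient : ℝ)⁻¹) := by ring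
      _ = _ := by
        rw [h2, h3, mul_sum]
        refine sum_congr rfl fun k _ => ?_
        ring
  rw [sum_congr rfl fun x hx => sum_congr rfl fun y hy => h1 x hx y hy]
  have h2 : ∀ k ∈ d.divisors, (∑ x ∈ d.divisorsAntidiagonal, ∑ y ∈ d'.divisorsAntidiagonal,
      h k * ((((moebius x.1 : ℤ) : ℝ) * (if k ∣ x.2 then 1 else 0)) *
          (((moebius y.1 : ℤ) : ℝ) * (if k ∣ y.2 then 1 else 0))))
      = h k * ((if d = k then 1 else 0) * (if d' = k then 1 else 0)) := by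
    intro k hk
    have hk0 : 0 < k := Nat.pos_of_mem_divisors hk
    rw [← sum_mu_dvd k d hk0 hd, ← sum_mu_dvd k d' hk0 hd', sum_mul_sum, mul_sum]
    refine sum_congr rfl fun x _ => ?_
    rw [mul_sum]
  calc _ = ∑ k ∈ d.divisors, (∑ x ∈ d.divisorsAntidiagonal, ∑ y ∈ d'.divisorsAntidiagonal,
      h k * ((((moebius x.1 : ℤ) : ℝ) * (if k ∣ x.2 then 1 else 0)) *
          (((moebius y.1 : ℤ) : ℝ) * (if k ∣ y.2 then 1 else 0)))) := by
        rw [sum_congr rfl fun x _ => sum_comm, sum_comm]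
    _ = _ := by
        rw [sum_congr rfl h2]
        rw [sum_eq_single d]
        · by_cases h3 : d = d'
          · simp [h3]
          · simp [h3, Ne.symm h3]
        · intro k _ hk
          simp [Ne.symm hk]
        · intro h3
          exact absurd (Nat.mem_divisors_self d hd.ne') h3


/-- `Dd d X = ∑_{e ∣ d} μ(d/e) φ(e) μ(e) Tc(e,X)`. -/
noncomputable def Dd (d X : ℕ) : ℝ :=
  ∑ x ∈ d.divisorsAntidiagonal,
    ((moebius x.1 : ℤ) : ℝ) * (x.2.totient : ℝ) * (((moebius x.2 : ℤ) : ℝ) * Tc x.2 X)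

lemma Dd_eq (d X : ℕ) : Dd d X = ∑ n ∈ Icc 1 X, ((moebius n : ℤ) : ℝ) * w n * G d n := by
  unfold Dd G
  simp only [mul_sum]
  rw [sum_comm]
  refine sum_congr rfl fun x hx => ?_
  rw [Nat.mem_divisorsAntidiagonal] at hx
  have hx2 : 0 < x.2 := Nat.pos_of_ne_zero (by rintro h; apply hx.2; rw [← hx.1, h, mul_zero])
  rw [← sum_mu_multiples x.2 X hx2, sum_filter, mul_sum]
  refine sum_congr rfl fun n _ => ?_
  split_ifs <;> ring

lemma tendsto_GG (d d' : ℕ) (hd : 0 < d) (hd' : 0 < d') :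
    Tendsto (fun X : ℕ => (∑ n ∈ Icc 1 X, w n * G d n * G d' n) / X) atTop
      (𝓝 (if d = d' then h d else 0)) := by
  rw [← orth d d' hd hd']
  have h1 : ∀ X : ℕ, (∑ n ∈ Icc 1 X, w n * G d n * G d' n) / X
      = ∑ x ∈ d.divisorsAntidiagonal, ∑ y ∈ d'.divisorsAntidiagonal,
      ((moebius x.1 : ℤ) : ℝ) * (x.2.totient : ℝ) * (((moebius y.1 : ℤ) : ℝ) * (y.2.totient : ℝ))
        * (F (x.2.lcm y.2) X / X) := by
    intro X
    have h2 : ∀ n, w n * G d n * G d' n = ∑ x ∈ d.divisorsAntidiagonal, ∑ y ∈ d'.divisorsAntidiagonal,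
      ((moebius x.1 : ℤ) : ℝ) * (x.2.totient : ℝ) * (((moebius y.1 : ℤ) : ℝ) * (y.2.totient : ℝ))
        * (if x.2.lcm y.2 ∣ n then w n else 0) := by
      intro n
      rw [mul_assoc, G, G, sum_mul_sum, mul_sum]
      refine sum_congr rfl fun x _ => ?_
      rw [mul_sum]
      refine sum_congr rfl fun y _ => ?_
      by_cases h3 : x.2 ∣ n <;> by_cases h4 : y.2 ∣ n <;> simp [h3, h4, Nat.lcm_dvd_iff]
      ring
    rw [sum_congr rfl fun n _ => h2 n, sum_comm, sum_div]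
    refine sum_congr rfl fun x _ => ?_
    rw [sum_comm, sum_div]
    refine sum_congr rfl fun y _ => ?_
    rw [← mul_sum, F, sum_filter, mul_div_assoc]
  simp only [h1]
  refine tendsto_finsetSum _ fun x hx => tendsto_finsetSum _ fun y hy => ?_
  rw [Nat.mem_divisorsAntidiagonal] at hx hy
  have hx2 : 0 < x.2 := Nat.pos_of_ne_zero (by rintro h; apply hx.2; rw [← hx.1, h, mul_zero])
  have hy2 : 0 < y.2 := Nat.pos_of_ne_zero (by rintro h; apply hy.2; rw [← hy.1, h, mul_zero])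
  exact (tendsto_F _ (Nat.lcm_pos hx2 hy2)).const_mul _

/-- a bound for `|G d n|`. -/
noncomputable def B (d : ℕ) : ℝ := ∑ x ∈ d.divisorsAntidiagonal, (x.2.totient : ℝ)

lemma B_nonneg (d : ℕ) : 0 ≤ B d := sum_nonneg fun _ _ => Nat.cast_nonneg _

lemma abs_G_le (d n : ℕ) : |G d n| ≤ B d := by
  unfold G B
  refine (abs_sum_le_sum_abs _ _).trans (sum_le_sum fun x _ => ?_)
  rw [abs_mul]
  have h1 := moebius_abs_le x.1
  have h2 : |(x.2.totient : ℝ) * (if x.2 ∣ n then 1 else 0)| ≤ x.2.totient := by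
    split_ifs <;> simp
  calc _ ≤ 1 * (x.2.totient : ℝ) := mul_le_mul h1 h2 (abs_nonneg _) zero_le_one
    _ = _ := one_mul _

lemma F_one (X : ℕ) : F 1 X = ∑ n ∈ Icc 1 X, w n := by
  simp [F]

lemma abs_Dd_le (d X : ℕ) : |Dd d X| ≤ B d * F 1 X := by
  rw [Dd_eq, F_one, mul_sum]
  refine (abs_sum_le_sum_abs _ _).trans (sum_le_sum fun n _ => ?_)
  rw [abs_mul, abs_mul, abs_of_nonneg (w_nonneg n)]
  have h1 := moebius_abs_le n
  have h2 := abs_G_le d n
  calc |((moebius n : ℤ) : ℝ)| * w n * |G d n| ≤ 1 * w n * B d := by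
        have h3 := w_nonneg n
        gcongr
    _ = _ := by ring

/-! ### the density of squarefree shifted primes (upper bound) -/

/-- `n ↦ [n² ∣ m]` as an arithmetic function. -/
noncomputable def sqDvd (m : ℕ) : ArithmeticFunction ℝ :=
  ⟨fun n => if n ≠ 0 ∧ n ^ 2 ∣ m then 1 else 0, by simp⟩

lemma sqDvd_apply (m n : ℕ) : sqDvd m n = if n ≠ 0 ∧ n ^ 2 ∣ m then 1 else 0 := rfl

lemma sqDvd_mult (m : ℕ) : (sqDvd m).IsMultiplicative := by
  refine ⟨by simp [sqDvd_apply], ?_⟩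
  intro a b hab
  simp only [sqDvd_apply]
  have h1 : (a * b ≠ 0 ∧ (a * b) ^ 2 ∣ m) ↔ (a ≠ 0 ∧ a ^ 2 ∣ m) ∧ (b ≠ 0 ∧ b ^ 2 ∣ m) := by
    rw [mul_pow]
    constructor
    · rintro ⟨h1, h2⟩
      exact ⟨⟨left_ne_zero_of_mul h1, (Dvd.intro _ rfl).trans h2⟩,
        right_ne_zero_of_mul h1, (Dvd.intro_left _ rfl).trans h2⟩
    · rintro ⟨⟨h1, h2⟩, h3, h4⟩
      exact ⟨mul_ne_zero h1 h3, (Nat.Coprime.pow 2 2 hab).mul_dvd_of_dvd_of_dvd h2 h4⟩
  rw [if_congr h1 rfl rfl]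
  by_cases h2 : (a ≠ 0 ∧ a ^ 2 ∣ m)
  · by_cases h3 : (b ≠ 0 ∧ b ^ 2 ∣ m)
    · rw [if_pos ⟨h2, h3⟩, if_pos h2, if_pos h3, mul_one]
    · rw [if_neg (fun h => h3 h.2), if_neg h3, mul_zero]
  · rw [if_neg (fun h => h2 h.1), if_neg h2, zero_mul]

/-- `n ↦ 1/φ(n²)` as an arithmetic function. -/
noncomputable def invPhiSq : ArithmeticFunction ℝ :=
  ⟨fun n => (((n ^ 2).totient : ℝ))⁻¹, by simp⟩

lemma invPhiSq_apply (n : ℕ) : invPhiSq n = (((n ^ 2).totient : ℝ))⁻¹ := rfl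

lemma invPhiSq_mult : invPhiSq.IsMultiplicative := by
  refine ⟨by simp [invPhiSq_apply], ?_⟩
  intro a b hab
  simp only [invPhiSq_apply]
  rw [mul_pow, Nat.totient_mul (Nat.Coprime.pow 2 2 hab)]
  push_cast
  rw [mul_inv]

/-- `Q X = ∑_{n ≤ X} μ(n)² Λ(n-1)`. -/
noncomputable def Q (X : ℕ) : ℝ := ∑ n ∈ Icc 1 X, ((moebius n : ℤ) : ℝ) ^ 2 * w n

/-- the partial products of Artin's constant. -/
noncomputable def artin (y : ℕ) : ℝ := ∏ p ∈ (range (y + 1)).filter Nat.Prime, (1 - 1 / ((p : ℝ) * (p - 1)))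

lemma Q_le (y X : ℕ) : Q X ≤ ∑ d ∈ (primorial y).divisors, ((moebius d : ℤ) : ℝ) * F (d ^ 2) X := by
  have hsq : Squarefree (primorial y) := squarefree_primorial y
  have h1 : ∀ n : ℕ, ∑ d ∈ (primorial y).divisors, ((moebius d : ℤ) : ℝ) * (if d ^ 2 ∣ n then w n else 0)
      = w n * ∏ p ∈ (primorial y).primeFactors, (1 - sqDvd n p) := by
    intro n
    rw [(sqDvd_mult n).prodPrimeFactors_one_sub_of_squarefree _ hsq, mul_sum]
    refine sum_congr rfl fun d hd => ?_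
    have hd0 : d ≠ 0 := (Nat.pos_of_mem_divisors hd).ne'
    simp only [sqDvd_apply, hd0, ne_eq, not_false_eq_true, true_and]
    split_ifs <;> simp
    ring
  have h2 : ∑ d ∈ (primorial y).divisors, ((moebius d : ℤ) : ℝ) * F (d ^ 2) X
      = ∑ n ∈ Icc 1 X, w n * ∏ p ∈ (primorial y).primeFactors, (1 - sqDvd n p) := by
    rw [← sum_congr rfl fun n _ => h1 n, sum_comm]
    refine sum_congr rfl fun d _ => ?_
    rw [F, sum_filter, mul_sum]
  rw [h2, Q]
  refine sum_le_sum fun n _ => ?_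
  have h3 : ∀ p, 0 ≤ 1 - sqDvd n p := by
    intro p; rw [sqDvd_apply]; split_ifs <;> norm_num
  by_cases hn : Squarefree n
  · have h4 : ∏ p ∈ (primorial y).primeFactors, (1 - sqDvd n p) = 1 := by
      refine prod_eq_one fun p hp => ?_
      have hpp := Nat.prime_of_mem_primeFactors hp
      have : ¬ p ^ 2 ∣ n := by
        intro h5
        rw [pow_two] at h5
        have := hn p h5
        exact hpp.one_lt.ne' (Nat.isUnit_iff.mp this)
      rw [sqDvd_apply]; simp [this]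
    rw [h4, mul_one]
    have h5 : ((moebius n : ℤ) : ℝ) ^ 2 ≤ 1 := by
      have := moebius_abs_le n
      rw [← sq_abs]
      exact pow_le_one₀ (abs_nonneg _) this
    calc _ ≤ 1 * w n := mul_le_mul_of_nonneg_right h5 (w_nonneg n)
      _ = _ := one_mul _
  · rw [moebius_eq_zero_of_not_squarefree hn]
    simp only [Int.cast_zero, ne_eq, OfNat.ofNat_ne_zero, not_false_eq_true, zero_pow, zero_mul]
    exact mul_nonneg (w_nonneg n) (prod_nonneg fun p _ => h3 p)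

lemma artin_eq (y : ℕ) : ∑ d ∈ (primorial y).divisors, ((moebius d : ℤ) : ℝ) * (((d ^ 2).totient : ℝ))⁻¹
    = artin y := by
  have hsq : Squarefree (primorial y) := squarefree_primorial y
  have h1 := invPhiSq_mult.prodPrimeFactors_one_sub_of_squarefree _ hsq
  simp only [invPhiSq_apply] at h1
  rw [← h1, primeFactors_primorial, artin]
  refine prod_congr rfl fun p hp => ?_
  rw [mem_filter] at hp
  have hpp := hp.2
  rw [Nat.totient_prime_pow hpp (by norm_num)]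
  have h2 : (1:ℝ) < p := by exact_mod_cast hpp.one_lt
  rw [Nat.cast_mul, Nat.cast_pow, Nat.cast_sub hpp.one_lt.le]
  simp

lemma Q_eventually (y : ℕ) (ε : ℝ) (hε : 0 < ε) : ∀ᶠ X : ℕ in atTop, Q X ≤ (artin y + ε) * X := by
  have h1 : Tendsto (fun X : ℕ => (∑ d ∈ (primorial y).divisors, ((moebius d : ℤ) : ℝ) * F (d ^ 2) X) / X)
      atTop (𝓝 (artin y)) := by
    rw [← artin_eq]
    simp only [sum_div, mul_div_assoc]
    refine tendsto_finsetSum _ fun d hd => ?_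
    exact (tendsto_F _ (pow_pos (Nat.pos_of_mem_divisors hd) 2)).const_mul _
  filter_upwards [h1.eventually_le_const (show artin y < artin y + ε by linarith), eventually_ge_atTop 1]
    with X hX hX1
  have hX0 : (0:ℝ) < X := by exact_mod_cast hX1
  rw [div_le_iff₀ hX0] at hX
  exact (Q_le y X).trans hX

/-- the Bessel inequality with error term. -/
lemma bessel_exact (D : Finset ℕ) (X : ℕ) (c : ℕ → ℝ) :
    2 * ∑ d ∈ D, c d * Dd d X ≤ Q X +
      ∑ d ∈ D, ∑ d' ∈ D, c d * c d' * ∑ n ∈ Icc 1 X, w n * G d n * G d' n := by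
  have h1 : 0 ≤ ∑ n ∈ Icc 1 X, w n * (((moebius n : ℤ) : ℝ) - ∑ d ∈ D, c d * G d n) ^ 2 :=
    sum_nonneg fun n _ => mul_nonneg (w_nonneg n) (sq_nonneg _)
  have h2 : ∀ n, w n * (((moebius n : ℤ) : ℝ) - ∑ d ∈ D, c d * G d n) ^ 2
      = ((moebius n : ℤ) : ℝ) ^ 2 * w n - 2 * (∑ d ∈ D, c d * (((moebius n : ℤ) : ℝ) * w n * G d n))
        + ∑ d ∈ D, ∑ d' ∈ D, c d * c d' * (w n * G d n * G d' n) := by
    intro n
    have h4 : ∑ d ∈ D, c d * (((moebius n : ℤ) : ℝ) * w n * G d n)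
        = ((moebius n : ℤ) : ℝ) * w n * ∑ d ∈ D, c d * G d n := by
      rw [mul_sum]; exact sum_congr rfl fun d _ => by ring
    have h5 : ∑ d ∈ D, ∑ d' ∈ D, c d * c d' * (w n * G d n * G d' n)
        = w n * (∑ d ∈ D, c d * G d n) ^ 2 := by
      rw [pow_two, sum_mul_sum, mul_sum]
      refine sum_congr rfl fun d _ => ?_
      rw [mul_sum]
      exact sum_congr rfl fun d' _ => by ring
    rw [h4, h5]
    ring
  have h3 := h1.trans (sum_le_sum fun n _ => (h2 n).le)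
  rw [sum_add_distrib, sum_sub_distrib, ← mul_sum] at h3
  have h4 : ∑ n ∈ Icc 1 X, ∑ d ∈ D, c d * (((moebius n : ℤ) : ℝ) * w n * G d n)
      = ∑ d ∈ D, c d * Dd d X := by
    rw [sum_comm]
    refine sum_congr rfl fun d _ => ?_
    rw [Dd_eq, mul_sum]
  have h5 : ∑ n ∈ Icc 1 X, ∑ d ∈ D, ∑ d' ∈ D, c d * c d' * (w n * G d n * G d' n)
      = ∑ d ∈ D, ∑ d' ∈ D, c d * c d' * ∑ n ∈ Icc 1 X, w n * G d n * G d' n := by
    rw [sum_comm]
    refine sum_congr rfl fun d _ => ?_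
    rw [sum_comm]
    refine sum_congr rfl fun d' _ => ?_
    rw [mul_sum]
  rw [h4, h5] at h3
  unfold Q
  linarith

/-- **Bessel inequality**. -/
theorem bessel (y : ℕ) (D : Finset ℕ) (hD : ∀ d ∈ D, 0 < d ∧ 0 < h d) (ε : ℝ) (hε : 0 < ε) :
    ∀ᶠ X : ℕ in atTop, ∑ d ∈ D, Dd d X ^ 2 / h d ≤ (artin y + ε) * (X : ℝ) ^ 2 := by
  -- normalised quantities
  set a : ℕ → ℕ → ℝ := fun d X => Dd d X / X with ha
  set c : ℕ → ℕ → ℝ := fun d X => a d X / h d with hc
  set M : ℕ → ℕ → ℕ → ℝ := fun d d' X => (∑ n ∈ Icc 1 X, w n * G d n * G d' n) / X with hM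
  have hF := tendsto_F 1 one_pos
  simp only [Nat.totient_one, Nat.cast_one, inv_one] at hF
  have ha_bd : ∀ d, ∀ᶠ X : ℕ in atTop, |a d X| ≤ B d * 2 := by
    intro d
    filter_upwards [hF.eventually_le_const (show (1:ℝ) < 2 by norm_num), eventually_ge_atTop 1] with X hX hX1
    have hX0 : (0:ℝ) < X := by exact_mod_cast hX1
    simp only [ha, abs_div, abs_of_pos hX0]
    rw [div_le_iff₀ hX0]
    have h1 := abs_Dd_le d X
    have h2 : F 1 X ≤ 2 * X := by rwa [div_le_iff₀ hX0] at hX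
    calc _ ≤ B d * F 1 X := h1
      _ ≤ B d * (2 * X) := mul_le_mul_of_nonneg_left h2 (B_nonneg d)
      _ = _ := by ring
  have hE : Tendsto (fun X => ∑ d ∈ D, ∑ d' ∈ D, c d X * c d' X * (M d d' X - if d = d' then h d else 0))
      atTop (𝓝 0) := by
    suffices hh : Tendsto (fun X => ∑ d ∈ D, ∑ d' ∈ D, c d X * c d' X *
        (M d d' X - if d = d' then h d else 0)) atTop (𝓝 (∑ _d ∈ D, ∑ _d' ∈ D, (0:ℝ))) by
      simpa using hh
    refine tendsto_finsetSum _ fun d hd => ?_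
    refine tendsto_finsetSum _ fun d' hd' => ?_
    have h1 : Tendsto (fun X => M d d' X - if d = d' then h d else 0) atTop (𝓝 0) := by
      have := (tendsto_GG d d' (hD d hd).1 (hD d' hd').1).sub_const (if d = d' then h d else 0)
      rwa [sub_self] at this
    have h2 : Tendsto (fun X => (B d * 2 / h d) * (B d' * 2 / h d') *
        |M d d' X - if d = d' then h d else 0|) atTop (𝓝 0) := by
      have := h1.abs.const_mul ((B d * 2 / h d) * (B d' * 2 / h d'))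
      rwa [abs_zero, mul_zero] at this
    refine squeeze_zero_norm' ?_ h2
    filter_upwards [ha_bd d, ha_bd d'] with X hX hX'
    rw [Real.norm_eq_abs, abs_mul, abs_mul]
    have h3 : |c d X| ≤ B d * 2 / h d := by
      simp only [hc, abs_div, abs_of_pos (hD d hd).2]
      exact div_le_div_of_nonneg_right hX (hD d hd).2.le
    have h4 : |c d' X| ≤ B d' * 2 / h d' := by
      simp only [hc, abs_div, abs_of_pos (hD d' hd').2]
      exact div_le_div_of_nonneg_right hX' (hD d' hd').2.le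
    exact mul_le_mul_of_nonneg_right (mul_le_mul h3 h4 (abs_nonneg _)
      ((abs_nonneg _).trans h3)) (abs_nonneg _)
  filter_upwards [hE.eventually_le_const (show (0:ℝ) < ε / 2 by positivity),
    Q_eventually y (ε / 2) (by positivity), eventually_ge_atTop 1] with X hX1 hX2 hX3
  have hX0 : (0:ℝ) < X := by exact_mod_cast hX3
  have h1 := bessel_exact D X (fun d => c d X)
  have h2 : ∑ d ∈ D, c d X * Dd d X = X * ∑ d ∈ D, a d X ^ 2 / h d := by
    rw [mul_sum]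
    refine sum_congr rfl fun d _ => ?_
    simp only [hc, ha]
    field_simp
  have h3 : ∑ d ∈ D, ∑ d' ∈ D, c d X * c d' X * ∑ n ∈ Icc 1 X, w n * G d n * G d' n
      = X * (∑ d ∈ D, ∑ d' ∈ D, c d X * c d' X * (M d d' X - if d = d' then h d else 0))
        + X * ∑ d ∈ D, a d X ^ 2 / h d := by
    have h4 : ∑ d ∈ D, a d X ^ 2 / h d
        = ∑ d ∈ D, ∑ d' ∈ D, c d X * c d' X * (if d = d' then h d else 0) := by
      refine sum_congr rfl fun d hd => ?_
      simp only [mul_ite, mul_zero]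
      rw [sum_ite_eq, if_pos hd]
      simp only [hc]
      have := (hD d hd).2.ne'
      field_simp
    rw [h4, ← mul_add, ← sum_add_distrib, mul_sum]
    refine sum_congr rfl fun d _ => ?_
    rw [← sum_add_distrib, mul_sum]
    refine sum_congr rfl fun d' _ => ?_
    simp only [hM]
    field_simp
    ring
  simp only [h2, h3] at h1
  have h4 : X * ∑ d ∈ D, a d X ^ 2 / h d ≤ X * (artin y + ε) := by
    have h6 : X * (∑ d ∈ D, ∑ d' ∈ D, c d X * c d' X * (M d d' X - if d = d' then h d else 0))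
        ≤ X * (ε / 2) := mul_le_mul_of_nonneg_left hX1 hX0.le
    nlinarith
  have h5 : ∑ d ∈ D, a d X ^ 2 / h d ≤ artin y + ε := le_of_mul_le_mul_left h4 hX0
  have h6 : ∑ d ∈ D, Dd d X ^ 2 / h d = X ^ 2 * ∑ d ∈ D, a d X ^ 2 / h d := by
    rw [mul_sum]
    refine sum_congr rfl fun d _ => ?_
    simp only [ha]
    field_simp
  rw [h6, mul_comm]
  exact mul_le_mul_of_nonneg_right h5 (by positivity)

end Pool.Agent.Hhelper25.MobDil
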