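import Mathlib
import Pool.Agent.Hhelper25.MobDil.Bessel

set_option autoImplicit false

open Filter Topology Finset ArithmeticFunction

namespace Pool.Agent.Hhelper25.MobDil

lemma sum_antidiag_prime (p : ℕ) (hp : p.Prime) (f : ℕ × ℕ → ℝ) :
    ∑ x ∈ p.divisorsAntidiagonal, f x = f (1, p) + f (p, 1) := by
  have := Nat.sum_divisorsAntidiagonal (fun a b => f (a, b)) (n := p)
  simp only [Prod.mk.eta] at this
  rw [this, hp.sum_divisors]
  simp [Nat.div_self hp.pos, add_comm]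

lemma h_prime (p : ℕ) (hp : p.Prime) : h p = (p : ℝ) - 2 := by
  unfold h
  rw [sum_antidiag_prime p hp]
  simp only [Nat.totient_prime hp, Nat.totient_one, moebius_apply_prime hp, moebius_apply_one]
  rw [Nat.cast_sub hp.one_lt.le]
  push_cast
  ring

lemma Tc_one (X : ℕ) : Tc 1 X = S X := by
  unfold Tc S
  rw [filter_true_of_mem (fun m _ => Nat.coprime_one_right m)]
  simp

lemma Dd_prime (p : ℕ) (hp : p.Prime) (X : ℕ) : Dd p X = -(S X + ((p : ℝ) - 1) * Tc p X) := by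
  unfold Dd
  rw [sum_antidiag_prime p hp]
  simp only [Nat.totient_prime hp, Nat.totient_one, moebius_apply_prime hp, moebius_apply_one]
  rw [Nat.cast_sub hp.one_lt.le, Tc_one]
  push_cast
  ring

lemma artin_two : artin 2 = 1 / 2 := by
  unfold artin
  have : (range (2 + 1)).filter Nat.Prime = {2} := by decide
  rw [this]; norm_num

/-- eventually `|S + p T_p + D_p| ≤ 2 X/(p-1)`. -/
lemma err (p : ℕ) (hp : p.Prime) : ∀ᶠ X : ℕ in atTop,
    |S X + p * T p X + Dd p X| ≤ 2 / ((p : ℝ) - 1) * X := by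
  have hp1 : (1:ℝ) < p := by exact_mod_cast hp.one_lt
  have h1 := tendsto_F p hp.pos
  have h2 := (tendsto_F (p ^ 2) (pow_pos hp.pos 2)).const_mul ((p : ℝ) - 1)
  have h3 := h1.add h2
  rw [Nat.totient_prime hp, Nat.totient_prime_pow hp (by norm_num)] at h3
  have h4 : (((p - 1 : ℕ) : ℝ))⁻¹ + ((p : ℝ) - 1) * (((p ^ (2 - 1) * (p - 1) : ℕ) : ℝ))⁻¹
      < 2 / ((p : ℝ) - 1) := by
    rw [Nat.cast_mul, Nat.cast_sub hp.one_lt.le]
    simp only [Nat.cast_pow, Nat.cast_one]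
    norm_num
    have h5 : (0:ℝ) < (p:ℝ) - 1 := by linarith
    have h6 : ((p:ℝ) - 1) * (((p:ℝ) - 1)⁻¹ * (p:ℝ)⁻¹) = (p:ℝ)⁻¹ := by
      field_simp
    rw [h6]
    have h7 : (p:ℝ)⁻¹ < ((p:ℝ) - 1)⁻¹ := inv_strictAnti₀ h5 (by linarith)
    have h8 : 2 / ((p:ℝ) - 1) = ((p:ℝ) - 1)⁻¹ + ((p:ℝ) - 1)⁻¹ := by ring
    rw [h8]; linarith
  filter_upwards [h3.eventually_le_const h4, eventually_ge_atTop 1] with X hX hX1
  have hX0 : (0:ℝ) < X := by exact_mod_cast hX1
  have h5 : S X + p * T p X + Dd p X = T p X + ((p : ℝ) - 1) * (T p X - Tc p X) := by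
    rw [Dd_prime p hp]; ring
  have h6 : F p X / X + ((p : ℝ) - 1) * (F (p ^ 2) X / X) = (F p X + ((p : ℝ) - 1) * F (p ^ 2) X) / X := by
    ring
  rw [h6, div_le_iff₀ hX0] at hX
  rw [h5]
  refine le_trans ?_ hX
  refine (abs_add_le _ _).trans ?_
  rw [abs_mul, abs_of_pos (show (0:ℝ) < (p:ℝ) - 1 by linarith)]
  exact add_le_add (abs_T_le p X hp.pos)
    (mul_le_mul_of_nonneg_left (abs_T_sub_Tc_le p X hp) (by linarith))

/-- **Approximate dilation invariance.** -/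
theorem dilation (ε : ℝ) (hε : 0 < ε) (hε1 : ε ≤ 1) (y : ℕ) : ∀ᶠ X : ℕ in atTop,
    ∑ p ∈ (range (y + 1)).filter (fun p => p.Prime ∧ ε * X < |S X + p * T p X|), (1 : ℝ) / p
      ≤ 5 / ε ^ 2 := by
  set D : Finset ℕ := (range (y + 1)).filter (fun p => p.Prime ∧ 2 < p) with hD
  have hDh : ∀ d ∈ D, 0 < d ∧ 0 < h d := by
    intro d hd
    rw [hD, mem_filter] at hd
    refine ⟨hd.2.1.pos, ?_⟩
    rw [h_prime d hd.2.1]
    have : (2:ℝ) < d := by exact_mod_cast hd.2.2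
    linarith
  have h1 := bessel 2 D hDh (1 / 8) (by norm_num)
  rw [artin_two] at h1
  have h2 : ∀ᶠ X : ℕ in atTop, ∀ p ∈ (range (y + 1)).filter Nat.Prime,
      |S X + p * T p X + Dd p X| ≤ 2 / ((p : ℝ) - 1) * X := by
    rw [eventually_all_finset]
    intro p hp
    exact err p (mem_filter.mp hp).2
  filter_upwards [h1, h2, eventually_ge_atTop 1] with X hX hX' hX1
  have hX0 : (0:ℝ) < X := by exact_mod_cast hX1
  set E := (range (y + 1)).filter (fun p => p.Prime ∧ ε * X < |S X + p * T p X|) with hE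
  -- split into small and large
  rw [← sum_filter_add_sum_filter_not E (fun p : ℕ => (p : ℝ) - 1 < 4 / ε)]
  have hsmall : ∑ p ∈ E.filter (fun p : ℕ => (p : ℝ) - 1 < 4 / ε), (1 : ℝ) / p ≤ (5 / 2) / ε ^ 2 := by
    have h3 : ∀ p ∈ E.filter (fun p : ℕ => (p : ℝ) - 1 < 4 / ε), (1 : ℝ) / p ≤ 1 / 2 := by
      intro p hp
      rw [hE, mem_filter, mem_filter] at hp
      have : (2:ℝ) ≤ p := by exact_mod_cast hp.1.2.1.two_le
      exact one_div_le_one_div_of_le (by norm_num) this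
    refine (sum_le_card_nsmul _ _ _ h3).trans ?_
    rw [nsmul_eq_mul]
    have h4 : E.filter (fun p : ℕ => (p : ℝ) - 1 < 4 / ε) ⊆ Ico 1 (⌊4 / ε⌋₊ + 2) := by
      intro p hp
      rw [hE, mem_filter, mem_filter] at hp
      rw [mem_Ico]
      refine ⟨hp.1.2.1.pos, ?_⟩
      have h5 : ((p - 1 : ℕ) : ℝ) ≤ 4 / ε := by
        rw [Nat.cast_sub hp.1.2.1.one_lt.le, Nat.cast_one]
        exact hp.2.le
      have := Nat.le_floor h5
      omega
    have h5 := card_le_card h4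
    rw [Nat.card_Ico] at h5
    have h6 : ((#(E.filter (fun p : ℕ => (p : ℝ) - 1 < 4 / ε)) : ℕ) : ℝ) ≤ 4 / ε + 1 := by
      have h7 : ((⌊4 / ε⌋₊ : ℕ) : ℝ) ≤ 4 / ε := Nat.floor_le (by positivity)
      have h8 : ((#(E.filter (fun p : ℕ => (p : ℝ) - 1 < 4 / ε)) : ℕ) : ℝ) ≤ ((⌊4 / ε⌋₊ + 1 : ℕ) : ℝ) :=
        Nat.cast_le.mpr (by omega)
      push_cast at h8
      linarith
    have h7 : 4 / ε + 1 ≤ 5 / ε ^ 2 := by
      rw [div_add_one hε.ne', div_le_div_iff₀ hε (by positivity)]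
      nlinarith [mul_pos hε hε, mul_pos (mul_pos hε hε) hε]
    have h8 : (5 / 2) / ε ^ 2 = (5 / ε ^ 2) * (1 / 2) := by ring
    rw [h8]
    exact mul_le_mul_of_nonneg_right (h6.trans h7) (by norm_num)
  have hlarge : ∑ p ∈ E.filter (fun p : ℕ => ¬ (p : ℝ) - 1 < 4 / ε), (1 : ℝ) / p ≤ (5 / 2) / ε ^ 2 := by
    have h3 : ∀ p ∈ E.filter (fun p : ℕ => ¬ (p : ℝ) - 1 < 4 / ε),
        (1 : ℝ) / p ≤ (4 / (ε ^ 2 * X ^ 2)) * (Dd p X ^ 2 / h p) := by
      intro p hp
      rw [mem_filter, hE, mem_filter] at hp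
      obtain ⟨⟨hpy, hpp, hp1⟩, hp2⟩ := hp
      rw [not_lt] at hp2
      have h4 := hX' p (mem_filter.mpr ⟨hpy, hpp⟩)
      have hp0 : (1:ℝ) < p := by exact_mod_cast hpp.one_lt
      have hp3 : (4:ℝ) ≤ 4 / ε := by
        rw [le_div_iff₀ hε]; linarith
      have h5 : 2 / ((p : ℝ) - 1) ≤ ε / 2 := by
        rw [div_le_div_iff₀ (by linarith) (by norm_num)]
        rw [div_le_iff₀ hε] at hp2
        linarith
      have h6 : |S X + p * T p X| ≤ |S X + p * T p X + Dd p X| + |Dd p X| := by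
        have := abs_sub (S X + p * T p X + Dd p X) (Dd p X)
        rwa [add_sub_cancel_right] at this
      have h7 : 2 / ((p : ℝ) - 1) * X ≤ ε / 2 * X := mul_le_mul_of_nonneg_right h5 hX0.le
      have h8 : ε / 2 * X ≤ |Dd p X| := by linarith
      have h9 : (ε / 2 * X) ^ 2 ≤ Dd p X ^ 2 := by
        rw [← sq_abs (Dd p X)]
        exact pow_le_pow_left₀ (by positivity) h8 2
      have h10 : 0 < (p:ℝ) - 2 := by linarith
      rw [h_prime p hpp]
      calc (1:ℝ) / p ≤ 1 / ((p:ℝ) - 2) := one_div_le_one_div_of_le h10 (by linarith)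
        _ = (4 / (ε ^ 2 * X ^ 2)) * ((ε / 2 * X) ^ 2 / ((p:ℝ) - 2)) := by
          field_simp
          try norm_num
        _ ≤ _ := by
          gcongr
    refine (sum_le_sum h3).trans ?_
    rw [← mul_sum]
    have h4 : E.filter (fun p : ℕ => ¬ (p : ℝ) - 1 < 4 / ε) ⊆ D := by
      intro p hp
      rw [mem_filter, hE, mem_filter] at hp
      rw [hD, mem_filter]
      refine ⟨hp.1.1, hp.1.2.1, ?_⟩
      have hp3 : (4:ℝ) ≤ 4 / ε := by
        rw [le_div_iff₀ hε]; linarith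
      have h5 := hp.2
      rw [not_lt] at h5
      have : (2:ℝ) < p := by linarith
      exact_mod_cast this
    have h5 : ∑ p ∈ E.filter (fun p : ℕ => ¬ (p : ℝ) - 1 < 4 / ε), Dd p X ^ 2 / h p
        ≤ ∑ p ∈ D, Dd p X ^ 2 / h p :=
      sum_le_sum_of_subset_of_nonneg h4 fun p hp _ => div_nonneg (sq_nonneg _) (hDh p hp).2.le
    calc _ ≤ (4 / (ε ^ 2 * X ^ 2)) * ((1 / 2 + 1 / 8) * (X : ℝ) ^ 2) :=
          mul_le_mul_of_nonneg_left (h5.trans hX) (by positivity)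
      _ = _ := by
        field_simp
        try norm_num
  calc _ ≤ (5 / 2) / ε ^ 2 + (5 / 2) / ε ^ 2 := add_le_add hsmall hlarge
    _ = _ := by ring

/-- mass of the primes up to `y` tends to infinity. -/
lemma mass_unbounded (K : ℝ) : ∃ y : ℕ, K ≤ ∑ p ∈ (range (y + 1)).filter Nat.Prime, (1 : ℝ) / p := by
  by_contra hcon
  push Not at hcon
  apply not_summable_one_div_on_primes
  refine summable_of_sum_range_le (c := K) (fun n => Set.indicator_nonneg (fun _ _ => by positivity) _) ?_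
  intro n
  rcases Nat.eq_zero_or_pos n with rfl | hn
  · simp only [range_zero, sum_empty]
    refine le_trans ?_ (hcon 0).le
    exact sum_nonneg fun _ _ => by positivity
  · obtain ⟨y, rfl⟩ : ∃ y, n = y + 1 := ⟨n - 1, by omega⟩
    refine le_trans (le_of_eq ?_) (hcon y).le
    rw [sum_filter]
    refine sum_congr rfl fun p _ => ?_
    simp [Set.indicator_apply]

/-- **The criterion, forward.** -/
theorem criterion_fwd (hS : Tendsto (fun X : ℕ => S X / X) atTop (𝓝 0)) (ε : ℝ) (hε : 0 < ε)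
    (hε1 : ε ≤ 1) (K : ℝ) : ∃ P : Finset ℕ, (∀ p ∈ P, p.Prime) ∧ ∀ᶠ X : ℕ in atTop,
      K ≤ ∑ p ∈ P.filter (fun p => |p * T p X| ≤ ε * X), (1 : ℝ) / p := by
  obtain ⟨y, hy⟩ := mass_unbounded (K + 5 / (ε / 2) ^ 2)
  refine ⟨(range (y + 1)).filter Nat.Prime, fun p hp => (mem_filter.mp hp).2, ?_⟩
  have h1 := dilation (ε / 2) (by positivity) (by linarith) y
  have h2 := (hS.abs.eventually_le_const (show |(0:ℝ)| < ε / 2 by simpa using hε))
  filter_upwards [h1, h2, eventually_ge_atTop 1] with X hX1 hX2 hX3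
  have hX0 : (0:ℝ) < X := by exact_mod_cast hX3
  rw [abs_div, abs_of_pos hX0, div_le_iff₀ hX0] at hX2
  rw [← sum_filter_add_sum_filter_not _ (fun p : ℕ => |(p:ℝ) * T p X| ≤ ε * X)] at hy
  have h3 : ∑ p ∈ ((range (y + 1)).filter Nat.Prime).filter (fun p : ℕ => ¬ |(p:ℝ) * T p X| ≤ ε * X), (1 : ℝ) / p
      ≤ 5 / (ε / 2) ^ 2 := by
    refine le_trans ?_ hX1
    refine sum_le_sum_of_subset_of_nonneg ?_ fun _ _ _ => by positivity
    intro p hp
    rw [mem_filter, mem_filter, not_le] at hp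
    rw [mem_filter]
    refine ⟨hp.1.1, hp.1.2, ?_⟩
    have h4 : |(p:ℝ) * T p X| ≤ |S X + p * T p X| + |S X| := by
      have := abs_sub (S X + p * T p X) (S X)
      rwa [add_sub_cancel_left] at this
    linarith [hp.2]
  linarith

/-- **The criterion, backward.** -/
theorem criterion_bwd (hP : ∀ ε : ℝ, 0 < ε → ε ≤ 1 → ∃ P : Finset ℕ, (∀ p ∈ P, p.Prime) ∧
      ∀ᶠ X : ℕ in atTop, 6 / ε ^ 2 ≤ ∑ p ∈ P.filter (fun p => |p * T p X| ≤ ε * X), (1 : ℝ) / p) :
    Tendsto (fun X : ℕ => S X / X) atTop (𝓝 0) := by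
  have key : ∀ δ : ℝ, 0 < δ → ∀ᶠ X : ℕ in atTop, |S X / X| ≤ δ := by
    intro δ hδ
    set ε := min 1 (δ / 2) with hεd
    have hε : 0 < ε := lt_min one_pos (by positivity)
    have hε1 : ε ≤ 1 := min_le_left _ _
    have hεδ : 2 * ε ≤ δ := by
      have : ε ≤ δ / 2 := min_le_right _ _
      linarith
    obtain ⟨P, hPp, hP⟩ := hP ε hε hε1
    have h1 := dilation ε hε hε1 (P.sup id)
    filter_upwards [hP, h1, eventually_ge_atTop 1] with X hX hX1 hX2
    have hX0 : (0:ℝ) < X := by exact_mod_cast hX2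
    by_contra hcon
    push Not at hcon
    rw [abs_div, abs_of_pos hX0, lt_div_iff₀ hX0] at hcon
    have h2 : ∑ p ∈ P.filter (fun p : ℕ => |(p:ℝ) * T p X| ≤ ε * X), (1 : ℝ) / p ≤ 5 / ε ^ 2 := by
      refine le_trans ?_ hX1
      refine sum_le_sum_of_subset_of_nonneg ?_ fun _ _ _ => by positivity
      intro p hp
      rw [mem_filter] at hp
      rw [mem_filter, mem_range]
      have h3 : p ≤ P.sup id := le_sup (f := id) hp.1
      refine ⟨by omega, hPp p hp.1, ?_⟩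
      have h4 : |S X| ≤ |S X + p * T p X| + |(p:ℝ) * T p X| := by
        have := abs_sub (S X + p * T p X) (p * T p X)
        rwa [add_sub_cancel_right] at this
      have h5 : 2 * ε * X ≤ δ * X := mul_le_mul_of_nonneg_right hεδ hX0.le
      linarith [hp.2]
    have h3 := hX.trans h2
    rw [div_le_div_iff_of_pos_right (by positivity)] at h3
    norm_num at h3
  rw [Metric.tendsto_atTop]
  intro δ hδ
  obtain ⟨N, hN⟩ := eventually_atTop.mp (key (δ / 2) (by positivity))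
  refine ⟨N, fun n hn => ?_⟩
  rw [Real.dist_eq, sub_zero]
  linarith [hN n hn]

end Pool.Agent.Hhelper25.MobDil
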